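import Mathlib

set_option autoImplicit false

/-!
# Parity of the coefficients of `T_o(q)`

`T_o(q) = ∑_{m ≥ 0} q^(2m) (-q;q)_(2m) / (q;q²)_(m+1) = ∑ t_o(n) q^n`.  We prove: if `8 n + 9` is not
of the form `x² + 2 y²` then `t_o(n)` is even.

Proof.  Modulo two `T_o(q) = ∑ q^(2m) (q²;q²)_m / (1 - q^(2m+1))`.  With `Q = q²` there is the
Bailey pair (relative to `Q²`)
`1 / ((Q)_n (1 - q^(2n+1))) = ∑_{r ≤ n} (-1)^r q^(r²) (1 - Q^(2r+2)) f_r / ((Q)_(n-r) (Q)_(n+r+2))`,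
`f_r = ∑_{a ≤ 2r+1} q^(a(a+1)/2)`, and the sum
`∑_{n=r}^N Q^n (Q)_n² / ((Q)_(n-r) (Q)_(n+r+2))` telescopes.  Since `(1 - x)² = 1 - x²` modulo two this gives
`T_o(q) ≡ ∑_{r ≥ 0} ∑_{a ≤ 2r+1} q^((r+1)² - 1 + a(a+1)/2)`, and
`8 ((r+1)² - 1 + a(a+1)/2) + 9 = (2a+1)² + 2 (2(r+1))²`.
-/

namespace Pool.Agent.Results.MP_0c59fa_nt.Parity

open Finset PowerSeries

/-! ### Finite identities in a commutative ring -/

section ring

variable {R : Type*} [CommRing R] (q : R) (I J : ℕ → R)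

/-- `(Q; Q)_k`, `Q = q ^ 2` -/
def P (k : ℕ) : R := ∏ i ∈ range k, (1 - q ^ (2 * (i + 1)))

/-- `f_r = ∑_{a ≤ 2r+1} q^(a(a+1)/2)` -/
def f (r : ℕ) : R := ∑ s ∈ range (r + 1), (q ^ (2 * s ^ 2 + s) + q ^ (2 * s ^ 2 + 3 * s + 1))

lemma P_succ (k : ℕ) : P q (k + 1) = P q k * (1 - q ^ (2 * (k + 1))) := by
  unfold P; rw [prod_range_succ]

/-- `I k` is the inverse of `(Q; Q)_k`, and `J n` the inverse of `1 - q^(2n+1)` -/
structure Inv : Prop where
  i0 : I 0 = 1
  is : ∀ k, I k = (1 - q ^ (2 * (k + 1))) * I (k + 1)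
  j : ∀ n, J n * (1 - q ^ (2 * n + 1)) = 1

variable {q I J}

lemma Inv.pi (h : Inv q I J) (k : ℕ) : P q k * I k = 1 := by
  induction k with
  | zero => simp [P, h.i0]
  | succ k ih => rw [P_succ, mul_assoc, ← h.is, ih]

/-- the inner sum of the Bailey pair -/
lemma tele1 (h : Inv q I J) (j : ℕ) : ∀ s : ℕ,
    ∑ i ∈ range (j + 1), (-1) ^ (s + i) * q ^ ((s + i) ^ 2) * (1 - q ^ (4 * (s + i) + 4)) *
      (I (j - i) * I (2 * s + j + i + 2)) =
    (-1) ^ s * q ^ (s ^ 2) * (1 - q ^ (2 * s + 1)) * (J (s + j) * (I j * I (2 * s + j + 1))) := by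
  induction j with
  | zero =>
    intro s
    have h1 := h.is (2 * s + 1)
    have h2 := h.j s
    simp only [zero_add, sum_range_one, add_zero, h.i0, Nat.sub_zero, one_mul, ← mul_assoc]
    rw [h1]
    have e : 2 * (2 * s + 1 + 1) = 4 * s + 4 := by ring
    rw [e]
    linear_combination (-(-1 : R) ^ s * q ^ s ^ 2 * (1 - q ^ (4 * s + 4)) * I (2 * s + 2)) * h2
  | succ j ih =>
    intro s
    rw [sum_range_succ']
    have h3 := ih (s + 1)
    have e1 : ∀ i ∈ range (j + 1), (-1 : R) ^ (s + (i + 1)) * q ^ ((s + (i + 1)) ^ 2) *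
        (1 - q ^ (4 * (s + (i + 1)) + 4)) * (I (j + 1 - (i + 1)) * I (2 * s + (j + 1) + (i + 1) + 2)) =
        (-1 : R) ^ (s + 1 + i) * q ^ ((s + 1 + i) ^ 2) * (1 - q ^ (4 * (s + 1 + i) + 4)) *
        (I (j - i) * I (2 * (s + 1) + j + i + 2)) := by
      intro i _
      have a1 : s + (i + 1) = s + 1 + i := by ring
      have a2 : j + 1 - (i + 1) = j - i := by omega
      have a3 : 2 * s + (j + 1) + (i + 1) + 2 = 2 * (s + 1) + j + i + 2 := by ring
      rw [a1, a2, a3]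
    rw [sum_congr rfl e1, h3]
    simp only [add_zero, Nat.sub_zero]
    have b1 := h.is j
    have b2 := h.is (2 * s + j + 2)
    have b3 := h.j (s + (j + 1))
    have a4 : s + 1 + j = s + (j + 1) := by ring
    have a5 : 2 * (s + 1) + j + 1 = 2 * s + j + 2 + 1 := by ring
    have a6 : 2 * s + (j + 1) + 2 = 2 * s + j + 2 + 1 := by ring
    have a7 : 2 * s + (j + 1) + 1 = 2 * s + j + 2 := by ring
    rw [a4, a5, a6, a7, b2, b1]
    have c1 : q ^ ((s + 1) ^ 2) = q ^ (s ^ 2) * q ^ (2 * s) * q := by ring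
    have c2 : (-1 : R) ^ (s + 1) = - (-1) ^ s := by ring
    have c3 : q ^ (4 * s + 4) = (q ^ (2 * s)) ^ 2 * q ^ 4 := by ring
    have c4 : q ^ (2 * (s + 1) + 1) = q ^ (2 * s) * q ^ 3 := by ring
    have c5 : q ^ (2 * s + 1) = q ^ (2 * s) * q := by ring
    have c6 : q ^ (2 * (s + (j + 1)) + 1) = q ^ (2 * s) * q ^ (2 * j) * q ^ 3 := by ring
    have c7 : q ^ (2 * (j + 1)) = q ^ (2 * j) * q ^ 2 := by ring
    have c8 : q ^ (2 * (2 * s + j + 2 + 1)) = (q ^ (2 * s)) ^ 2 * q ^ (2 * j) * q ^ 6 := by ring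
    rw [c6] at b3
    rw [c1, c2, c3, c4, c5, c7, c8]
    linear_combination (-(-1 : R) ^ s * q ^ s ^ 2 * (1 - (q ^ (2 * s)) ^ 2 * q ^ 4) *
      (I (j + 1) * I (2 * s + j + 2 + 1))) * b3

/-- summand of the classical Bailey pair relative to `Q` -/
def F (I : ℕ → R) (q : R) (n s : ℕ) : R :=
  (-1) ^ s * q ^ (s * (3 * s + 1)) * (1 - q ^ (4 * s + 2)) * (I (n - s) * I (n + s + 1))

lemma bthree (h : Inv q I J) (n : ℕ) : ∑ s ∈ range (n + 1), F I q n s = I n := by
  induction n with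
  | zero =>
    have h1 := h.is 0
    simp only [zero_add, sum_range_one, F, h.i0]
    rw [h.i0] at h1
    simp only [zero_add, mul_one] at h1
    norm_num
    rw [← h1]
  | succ n ih =>
    have key : ∀ k, k ≤ n + 1 → ∑ s ∈ range k, ((1 - q ^ (2 * (n + 1))) * F I q (n + 1) s - F I q n s) =
        - ((-1) ^ k * q ^ (k * (3 * k + 1)) * q ^ (2 * (n + 1 - k)) * (1 - q ^ (2 * k)) *
          (I (n + 1 - k) * I (n + 1 + k))) := by
      intro k
      induction k with
      | zero => intro _; simp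
      | succ k ihk =>
        intro hk
        obtain ⟨j, rfl⟩ : ∃ j, n = k + j := ⟨n - k, by omega⟩
        rw [sum_range_succ, ihk (by omega)]
        unfold F
        have a1 : k + j + 1 - k = j + 1 := by omega
        have a2 : k + j - k = j := by omega
        have a3 : k + j + 1 - (k + 1) = j := by omega
        have a4 : k + j + 1 + (k + 1) = k + j + 1 + k + 1 := by ring
        have a5 : k + j + k + 1 = k + j + 1 + k := by ring
        rw [a1, a2, a3, a4, a5]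
        have b1 := h.is j
        have b2 := h.is (k + j + 1 + k)
        rw [b2, b1]
        have c1 : q ^ ((k + 1) * (3 * (k + 1) + 1)) = q ^ (k * (3 * k + 1)) * (q ^ (2 * k)) ^ 3 * q ^ 4 := by
          ring
        have c2 : (-1 : R) ^ (k + 1) = - (-1) ^ k := by ring
        have c3 : q ^ (2 * (k + j + 1)) = q ^ (2 * k) * q ^ (2 * j) * q ^ 2 := by ring
        have c4 : q ^ (4 * k + 2) = (q ^ (2 * k)) ^ 2 * q ^ 2 := by ring
        have c5 : q ^ (2 * (j + 1)) = q ^ (2 * j) * q ^ 2 := by ring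
        have c6 : q ^ (2 * (k + j + 1 + k + 1)) = (q ^ (2 * k)) ^ 2 * q ^ (2 * j) * q ^ 4 := by ring
        have c7 : q ^ (2 * (k + 1)) = q ^ (2 * k) * q ^ 2 := by ring
        rw [c1, c2, c3, c4, c5, c6, c7]
        ring
    have h1 := key (n + 1) le_rfl
    rw [sum_sub_distrib, ← mul_sum] at h1
    rw [ih] at h1
    have b1 := h.is n
    have hp := h.pi (n + 1)
    have b2 := h.is (n + 1 + (n + 1))
    have hF : (1 - q ^ (2 * (n + 1))) * F I q (n + 1) (n + 1) = (-1) ^ (n + 1) *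
        q ^ ((n + 1) * (3 * (n + 1) + 1)) * q ^ (2 * (n + 1 - (n + 1))) * (1 - q ^ (2 * (n + 1))) *
          (I (n + 1 - (n + 1)) * I (n + 1 + (n + 1))) := by
      unfold F
      rw [b2, Nat.sub_self]
      have c1 : q ^ (4 * (n + 1) + 2) = q ^ (2 * (n + 1 + (n + 1) + 1)) := by ring
      rw [c1]
      ring
    have h2 : (1 - q ^ (2 * (n + 1))) * ∑ s ∈ range (n + 1 + 1), F I q (n + 1) s = I n := by
      rw [sum_range_succ, mul_add, hF]
      linear_combination h1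
    -- cancel `1 - q^(2(n+1))`
    have h3 : P q n * (1 - q ^ (2 * (n + 1))) * I (n + 1) = 1 := by rw [← P_succ]; exact hp
    calc ∑ s ∈ range (n + 1 + 1), F I q (n + 1) s =
        (P q n * (1 - q ^ (2 * (n + 1))) * I (n + 1)) * ∑ s ∈ range (n + 1 + 1), F I q (n + 1) s := by
          rw [h3, one_mul]
      _ = P q n * I (n + 1) * ((1 - q ^ (2 * (n + 1))) * ∑ s ∈ range (n + 1 + 1), F I q (n + 1) s) := by
          ring
      _ = P q n * I (n + 1) * I n := by rw [h2]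
      _ = I (n + 1) := by
          have := h.pi n
          linear_combination I (n + 1) * this

/-- the Bailey pair -/
lemma bailey (h : Inv q I J) (n : ℕ) :
    ∑ r ∈ range (n + 1), (-1) ^ r * q ^ (r ^ 2) * (1 - q ^ (4 * r + 4)) * f q r *
      (I (n - r) * I (n + r + 2)) = I n * J n := by
  have e1 : ∀ r ∈ range (n + 1), (-1) ^ r * q ^ (r ^ 2) * (1 - q ^ (4 * r + 4)) * f q r *
      (I (n - r) * I (n + r + 2)) = ∑ s ∈ range (r + 1), (q ^ (2 * s ^ 2 + s) + q ^ (2 * s ^ 2 + 3 * s + 1)) *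
        ((-1) ^ r * q ^ (r ^ 2) * (1 - q ^ (4 * r + 4)) * (I (n - r) * I (n + r + 2))) := by
    intro r _
    unfold f
    rw [mul_sum, sum_mul]
    refine sum_congr rfl fun s _ => ?_
    ring
  rw [sum_congr rfl e1]
  have e2 : ∑ r ∈ range (n + 1), ∑ s ∈ range (r + 1), (q ^ (2 * s ^ 2 + s) + q ^ (2 * s ^ 2 + 3 * s + 1)) *
        ((-1) ^ r * q ^ (r ^ 2) * (1 - q ^ (4 * r + 4)) * (I (n - r) * I (n + r + 2))) =
      ∑ s ∈ range (n + 1), ∑ r ∈ Ico s (n + 1), (q ^ (2 * s ^ 2 + s) + q ^ (2 * s ^ 2 + 3 * s + 1)) *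
        ((-1) ^ r * q ^ (r ^ 2) * (1 - q ^ (4 * r + 4)) * (I (n - r) * I (n + r + 2))) := by
    apply Finset.sum_comm'
    intro x y
    simp only [mem_range, mem_Ico]
    omega
  rw [e2, ← bthree h n, sum_mul]
  refine sum_congr rfl fun s hs => ?_
  have hsn : s ≤ n := by have := mem_range.1 hs; omega
  obtain ⟨j, rfl⟩ := Nat.exists_eq_add_of_le hsn
  rw [← mul_sum, sum_Ico_eq_sum_range]
  have a1 : s + j + 1 - s = j + 1 := by omega
  rw [a1]
  have e3 : ∀ i ∈ range (j + 1), (-1 : R) ^ (s + i) * q ^ ((s + i) ^ 2) * (1 - q ^ (4 * (s + i) + 4)) *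
      (I (s + j - (s + i)) * I (s + j + (s + i) + 2)) =
      (-1) ^ (s + i) * q ^ ((s + i) ^ 2) * (1 - q ^ (4 * (s + i) + 4)) *
      (I (j - i) * I (2 * s + j + i + 2)) := by
    intro i _
    have a2 : s + j - (s + i) = j - i := by omega
    have a3 : s + j + (s + i) + 2 = 2 * s + j + i + 2 := by ring
    rw [a2, a3]
  rw [sum_congr rfl e3, tele1 h j s]
  unfold F
  have a4 : s + j - s = j := by omega
  have a5 : s + j + s + 1 = 2 * s + j + 1 := by ring
  rw [a4, a5]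
  have c1 : q ^ (2 * s ^ 2 + 3 * s + 1) = q ^ (2 * s ^ 2 + s) * (q ^ (2 * s) * q) := by ring
  have c2 : q ^ (s * (3 * s + 1)) = q ^ (2 * s ^ 2 + s) * q ^ (s ^ 2) := by ring
  have c3 : q ^ (4 * s + 2) = (q ^ (2 * s) * q) ^ 2 := by ring
  have c4 : q ^ (2 * s + 1) = q ^ (2 * s) * q := by ring
  rw [c1, c2, c3, c4]
  ring

/-- the telescoping outer sum -/
lemma tele2 (h : Inv q I J) (r k : ℕ) :
    (1 - q ^ (2 * (r + 1))) ^ 2 * ∑ i ∈ range (k + 1), q ^ (2 * (r + i)) * P q (r + i) ^ 2 *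
      (I i * I (2 * r + i + 2)) =
    q ^ (2 * r) * P q (r + k + 1) ^ 2 * (I k * I (2 * r + k + 2)) := by
  induction k with
  | zero =>
    simp only [zero_add, sum_range_one, add_zero]
    rw [P_succ]
    ring
  | succ k ih =>
    rw [sum_range_succ, mul_add, ih]
    have b1 := h.is k
    have b2 := h.is (2 * r + k + 2)
    have a1 : 2 * r + (k + 1) + 2 = 2 * r + k + 2 + 1 := by ring
    have a2 : r + (k + 1) = r + k + 1 := by ring
    rw [a1, a2, P_succ q (r + k + 1), b1, b2]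
    have c1 : q ^ (2 * (r + 1)) = q ^ (2 * r) * q ^ 2 := by ring
    have c2 : q ^ (2 * (k + 1)) = q ^ (2 * k) * q ^ 2 := by ring
    have c3 : q ^ (2 * (2 * r + k + 2 + 1)) = (q ^ (2 * r)) ^ 2 * q ^ (2 * k) * q ^ 6 := by ring
    have c4 : q ^ (2 * (r + k + 1)) = q ^ (2 * r) * q ^ (2 * k) * q ^ 2 := by ring
    have c5 : q ^ (2 * (r + k + 1 + 1)) = q ^ (2 * r) * q ^ (2 * k) * q ^ 4 := by ring
    rw [c1, c2, c3, c4, c5]
    ring

/-- the finite form of the congruence -/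
lemma finite_form (h : Inv q I J) (h2 : (2 : R) = 0) (N : ℕ) :
    ∑ n ∈ range (N + 1), q ^ (2 * n) * P q n * J n =
      ∑ r ∈ range (N + 1), q ^ (r ^ 2 + 2 * r) * f q r *
        (P q (N + 1) ^ 2 * (I (N - r) * I (N + r + 2))) := by
  have e1 : ∀ n ∈ range (N + 1), q ^ (2 * n) * P q n * J n = ∑ r ∈ range (n + 1),
      ((-1) ^ r * q ^ (r ^ 2) * (1 - q ^ (4 * r + 4)) * f q r) *
        (q ^ (2 * n) * P q n ^ 2 * (I (n - r) * I (n + r + 2))) := by
    intro n _
    have h3 := bailey h n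
    have h4 := h.pi n
    have h5 : q ^ (2 * n) * P q n * J n = q ^ (2 * n) * P q n ^ 2 * (I n * J n) := by
      linear_combination (- q ^ (2 * n) * P q n * J n) * h4
    rw [h5, ← h3, mul_sum]
    refine sum_congr rfl fun r _ => ?_
    ring
  rw [sum_congr rfl e1]
  have e2 : ∑ n ∈ range (N + 1), ∑ r ∈ range (n + 1),
      ((-1) ^ r * q ^ (r ^ 2) * (1 - q ^ (4 * r + 4)) * f q r) *
        (q ^ (2 * n) * P q n ^ 2 * (I (n - r) * I (n + r + 2))) =
      ∑ r ∈ range (N + 1), ∑ n ∈ Ico r (N + 1),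
      ((-1) ^ r * q ^ (r ^ 2) * (1 - q ^ (4 * r + 4)) * f q r) *
        (q ^ (2 * n) * P q n ^ 2 * (I (n - r) * I (n + r + 2))) := by
    apply Finset.sum_comm'
    intro x y
    simp only [mem_range, mem_Ico]
    omega
  rw [e2]
  refine sum_congr rfl fun r hr => ?_
  have hrN : r ≤ N := by have := mem_range.1 hr; omega
  obtain ⟨k, rfl⟩ := Nat.exists_eq_add_of_le hrN
  rw [← mul_sum, sum_Ico_eq_sum_range]
  have a1 : r + k + 1 - r = k + 1 := by omega
  rw [a1]
  have e3 : ∀ i ∈ range (k + 1), q ^ (2 * (r + i)) * P q (r + i) ^ 2 *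
      (I (r + i - r) * I (r + i + r + 2)) = q ^ (2 * (r + i)) * P q (r + i) ^ 2 *
      (I i * I (2 * r + i + 2)) := by
    intro i _
    have a2 : r + i - r = i := by omega
    have a3 : r + i + r + 2 = 2 * r + i + 2 := by ring
    rw [a2, a3]
  rw [sum_congr rfl e3]
  have h3 := tele2 h r k
  have a4 : r + k - r = k := by omega
  have a5 : r + k + r + 2 = 2 * r + k + 2 := by ring
  rw [a4, a5]
  have c1 : (-1 : R) = 1 := by linear_combination -h2
  have c2 : 1 - q ^ (4 * r + 4) = (1 - q ^ (2 * (r + 1))) ^ 2 := by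
    have : q ^ (4 * r + 4) = (q ^ (2 * (r + 1))) ^ 2 := by ring
    rw [this]
    linear_combination (q ^ (2 * (r + 1)) - (q ^ (2 * (r + 1))) ^ 2) * h2
  rw [c1, one_pow, one_mul, c2]
  have c3 : q ^ (r ^ 2 + 2 * r) = q ^ (r ^ 2) * q ^ (2 * r) := by ring
  rw [c3]
  linear_combination q ^ (r ^ 2) * f q r * h3

end ring

/-! ### Power series modulo two -/

/-- the inverse of `(Q; Q)_k` over `ZMod 2` -/
noncomputable def I2 (k : ℕ) : PowerSeries (ZMod 2) := (P (X : PowerSeries (ZMod 2)) k)⁻¹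

/-- the inverse of `1 - q^(2n+1)` over `ZMod 2` -/
noncomputable def J2 (n : ℕ) : PowerSeries (ZMod 2) := (1 - (X : PowerSeries (ZMod 2)) ^ (2 * n + 1))⁻¹

lemma const_one_sub (k : ℕ) : constantCoeff (1 - (X : PowerSeries (ZMod 2)) ^ (k + 1)) ≠ 0 := by
  simp

lemma const_P (k : ℕ) : constantCoeff (P (X : PowerSeries (ZMod 2)) k) ≠ 0 := by
  induction k with
  | zero => simp [P]
  | succ k ih =>
    rw [P_succ, map_mul]
    refine mul_ne_zero ih ?_
    have : 2 * (k + 1) = (2 * k + 1) + 1 := by ring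
    rw [this]
    exact const_one_sub _

lemma inv2 : Inv (X : PowerSeries (ZMod 2)) I2 J2 where
  i0 := by
    have h := PowerSeries.mul_inv_cancel (P (X : PowerSeries (ZMod 2)) 0) (const_P 0)
    have h0 : P (X : PowerSeries (ZMod 2)) 0 = 1 := by simp [P]
    unfold I2
    rw [h0] at h ⊢
    rw [one_mul] at h
    exact h
  is := by
    intro k
    have h := PowerSeries.mul_inv_cancel (P (X : PowerSeries (ZMod 2)) k) (const_P k)
    have h1 := PowerSeries.mul_inv_cancel (P (X : PowerSeries (ZMod 2)) (k + 1)) (const_P (k + 1))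
    unfold I2
    rw [P_succ] at h1 ⊢
    linear_combination (-(P (X : PowerSeries (ZMod 2)) k)⁻¹) * h1 +
      ((1 - X ^ (2 * (k + 1))) * (P X k * (1 - X ^ (2 * (k + 1))))⁻¹) * h
  j := by
    intro n
    unfold J2
    rw [mul_comm]
    exact PowerSeries.mul_inv_cancel _ (const_one_sub _)

lemma dvd_P_sub (k l : ℕ) (h : k ≤ l) : (X : PowerSeries (ZMod 2)) ^ (2 * (k + 1)) ∣ P X l - P X k := by
  induction l, h using Nat.le_induction with
  | base => simp
  | succ l hl ih =>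
    rw [P_succ]
    have e : P X l * (1 - X ^ (2 * (l + 1))) - P (X : PowerSeries (ZMod 2)) k =
        (P X l - P X k) - P X l * X ^ (2 * (l + 1)) := by ring
    rw [e]
    refine dvd_sub ih (Dvd.dvd.mul_left (pow_dvd_pow _ (by omega)) _)

lemma dvd_error (r N : ℕ) (hr : r ≤ N) : (X : PowerSeries (ZMod 2)) ^ (2 * (N - r + 1)) ∣
    P X (N + 1) ^ 2 * (I2 (N - r) * I2 (N + r + 2)) - 1 := by
  have h1 := inv2.pi (N - r)
  have h2 := inv2.pi (N + r + 2)
  have e : P X (N + 1) ^ 2 * (I2 (N - r) * I2 (N + r + 2)) - 1 =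
      (P X (N + 1) * (P X (N + 1) - P X (N - r)) - P X (N - r) * (P X (N + r + 2) - P X (N + 1))) *
        (I2 (N - r) * I2 (N + r + 2)) := by
    linear_combination (P X (N + r + 2) * I2 (N + r + 2)) * h1 + h2
  rw [e]
  refine Dvd.dvd.mul_right (dvd_sub (Dvd.dvd.mul_left (dvd_P_sub _ _ (by omega)) _)
    (Dvd.dvd.mul_left ?_ _)) _
  exact (pow_dvd_pow _ (by omega)).trans (dvd_P_sub (N + 1) (N + r + 2) (by omega))

lemma coeff_U (n : ℕ) : coeff n (∑ m ∈ range (n + 1), X ^ (2 * m) * P X m * J2 m) =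
    coeff n (∑ r ∈ range (n + 1), (X : PowerSeries (ZMod 2)) ^ (r ^ 2 + 2 * r) * f X r) := by
  have h2 : (2 : PowerSeries (ZMod 2)) = 0 := by
    have : (C (2 : ZMod 2)) = (0 : PowerSeries (ZMod 2)) := by
      have h : (2 : ZMod 2) = 0 := by decide
      rw [h, map_zero]
    rw [← this, map_ofNat]
  rw [finite_form inv2 h2 n, ← sub_eq_zero, ← map_sub, ← sum_sub_distrib]
  have hd : (X : PowerSeries (ZMod 2)) ^ (n + 1) ∣ ∑ r ∈ range (n + 1),
      (X ^ (r ^ 2 + 2 * r) * f X r * (P X (n + 1) ^ 2 * (I2 (n - r) * I2 (n + r + 2))) -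
        (X : PowerSeries (ZMod 2)) ^ (r ^ 2 + 2 * r) * f X r) := by
    refine dvd_sum fun r hr => ?_
    have hrn : r ≤ n := by have := mem_range.1 hr; omega
    have e : X ^ (r ^ 2 + 2 * r) * f X r * (P X (n + 1) ^ 2 * (I2 (n - r) * I2 (n + r + 2))) -
        (X : PowerSeries (ZMod 2)) ^ (r ^ 2 + 2 * r) * f X r =
        f X r * (X ^ (r ^ 2 + 2 * r) * (P X (n + 1) ^ 2 * (I2 (n - r) * I2 (n + r + 2)) - 1)) := by ring
    rw [e]
    refine Dvd.dvd.mul_left ?_ _
    have h3 := mul_dvd_mul_left ((X : PowerSeries (ZMod 2)) ^ (r ^ 2 + 2 * r)) (dvd_error r n hrn)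
    refine dvd_trans ?_ h3
    rw [← pow_add]
    refine pow_dvd_pow _ ?_
    have : 0 ≤ r ^ 2 := Nat.zero_le _
    omega
  exact (X_pow_dvd_iff.1 hd) n (by omega)

/-- if the coefficient is odd then `8 n + 9` is represented -/
lemma rep_of_coeff (n : ℕ) (h : coeff n (∑ r ∈ range (n + 1),
    (X : PowerSeries (ZMod 2)) ^ (r ^ 2 + 2 * r) * f X r) ≠ 0) :
    ∃ x y : ℤ, x ^ 2 + 2 * y ^ 2 = 8 * n + 9 := by
  rw [map_sum] at h
  obtain ⟨r, -, hr⟩ := exists_ne_zero_of_sum_ne_zero h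
  unfold f at hr
  rw [mul_sum, map_sum] at hr
  obtain ⟨s, -, hs⟩ := exists_ne_zero_of_sum_ne_zero hr
  rw [mul_add, ← pow_add, ← pow_add, map_add, coeff_X_pow, coeff_X_pow] at hs
  by_cases h1 : n = r ^ 2 + 2 * r + (2 * s ^ 2 + s)
  · refine ⟨4 * s + 1, 2 * (r + 1), ?_⟩
    rw [h1]
    push_cast
    ring
  · rw [if_neg h1, zero_add] at hs
    by_cases h2 : n = r ^ 2 + 2 * r + (2 * s ^ 2 + 3 * s + 1)
    · refine ⟨4 * s + 3, 2 * (r + 1), ?_⟩
      rw [h2]
      push_cast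
      ring
    · rw [if_neg h2] at hs
      exact absurd rfl hs

/-! ### The series `T_o(q)` -/

/-- The `m`-th term `q^(2m) (-q;q)_(2m) / (q;q²)_(m+1)` of the series `T_o(q)`, in `ℤ⟦q⟧`. -/
noncomputable def term (m : ℕ) : PowerSeries ℤ :=
  X ^ (2 * m) * (∏ k ∈ range (2 * m), (1 + X ^ (k + 1))) *
    invOfUnit (∏ k ∈ range (m + 1), (1 - X ^ (2 * k + 1))) 1

/-- The denominator is invertible, so that `term m` is the quotient. -/
lemma denominator (m : ℕ) : (∏ k ∈ range (m + 1), (1 - (X : PowerSeries ℤ) ^ (2 * k + 1))) *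
    invOfUnit (∏ k ∈ range (m + 1), (1 - X ^ (2 * k + 1))) 1 = 1 := by
  refine mul_invOfUnit _ _ ?_
  rw [map_prod]
  simp

/-- The coefficient of `q^n` in `term m` vanishes if `n < 2 m`. -/
lemma coeff_term {n m : ℕ} (h : n < 2 * m) : coeff n (term m) = 0 := by
  unfold term
  rw [mul_assoc]
  exact (X_pow_dvd_iff.1 (dvd_mul_right _ _)) n h

/-- The coefficient `t_o(n)` of `q^n` in `T_o(q) = ∑_{m ≥ 0} q^(2m) (-q;q)_(2m) / (q;q²)_(m+1)`
(a sum over all `m`, with finitely many nonzero terms). -/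
noncomputable def t (n : ℕ) : ℤ := ∑ᶠ m, coeff n (term m)

lemma t_eq (n : ℕ) : t n = coeff n (∑ m ∈ range (n + 1), term m) := by
  unfold t
  rw [map_sum]
  apply finsum_eq_sum_of_support_subset
  intro m hm
  rw [Function.mem_support] at hm
  rw [coe_range, Set.mem_Iio]
  by_contra hc
  exact hm (coeff_term (by omega))

lemma map_term (m : ℕ) : PowerSeries.map (Int.castRingHom (ZMod 2)) (term m) =
    X ^ (2 * m) * P X m * J2 m := by
  set φ := PowerSeries.map (Int.castRingHom (ZMod 2)) with hφ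
  have hX : φ X = X := by rw [hφ, map_X]
  have hd := congrArg φ (denominator m)
  set ι := φ (invOfUnit (∏ k ∈ range (m + 1), (1 - X ^ (2 * k + 1))) 1) with hι
  rw [map_mul, map_one, ← hι, map_prod] at hd
  simp only [map_sub, map_one, map_pow, hX] at hd
  unfold term
  rw [map_mul, map_mul, ← hι, map_prod]
  simp only [map_add, map_one, map_pow, hX]
  have h2 : (2 : PowerSeries (ZMod 2)) = 0 := by
    have : (C (2 : ZMod 2)) = (0 : PowerSeries (ZMod 2)) := by
      have h : (2 : ZMod 2) = 0 := by decide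
      rw [h, map_zero]
    rw [← this, map_ofNat]
  have hprod : ∀ m : ℕ, ∏ k ∈ range (2 * m), (1 + (X : PowerSeries (ZMod 2)) ^ (k + 1)) =
      (∏ k ∈ range m, (1 - X ^ (2 * k + 1))) * P X m := by
    intro m
    induction m with
    | zero => simp [P]
    | succ m ih =>
      have e : 2 * (m + 1) = 2 * m + 1 + 1 := by ring
      rw [e, prod_range_succ, prod_range_succ, ih, prod_range_succ, P_succ]
      have e2 : 2 * (m + 1) = 2 * m + 1 + 1 := by ring
      rw [e2]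
      linear_combination ((∏ k ∈ range m, (1 - (X : PowerSeries (ZMod 2)) ^ (2 * k + 1))) * P X m *
        (X ^ (2 * m + 1) + X ^ (2 * m + 1 + 1))) * h2
  rw [hprod m]
  rw [prod_range_succ] at hd
  have hj := inv2.j m
  linear_combination (X ^ (2 * m) * P X m * J2 m) * hd -
    (X ^ (2 * m) * P X m * ι * (∏ k ∈ range m, (1 - X ^ (2 * k + 1)))) * hj

/-- **Q1.**  If `8 n + 9` is not represented by `x² + 2 y²` then `t_o(n)` is even. -/
theorem result (n : ℕ) (h : ¬ ∃ x y : ℤ, x ^ 2 + 2 * y ^ 2 = 8 * n + 9) : t n ≡ 0 [ZMOD 2] := by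
  have h1 : ((t n : ℤ) : ZMod 2) = coeff n (PowerSeries.map (Int.castRingHom (ZMod 2))
      (∑ m ∈ range (n + 1), term m)) := by
    rw [coeff_map, t_eq]
    rfl
  have key : ((t n : ℤ) : ZMod 2) = 0 := by
    rw [h1, map_sum]
    simp only [map_term]
    rw [coeff_U]
    by_contra hc
    exact h (rep_of_coeff n hc)
  rw [Int.modEq_zero_iff_dvd]
  exact_mod_cast (ZMod.intCast_zmod_eq_zero_iff_dvd (t n) 2).1 key

end Pool.Agent.Results.MP_0c59fa_nt.Parity
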